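import Pool.Agent.W307.RS.Stm
import Pool.Agent.W762.RK2.EXP4b

/-!
# Project RS: expansion of the moments into symbols (`EXPK`)
-/

set_option autoImplicit false

namespace Pool.Agent.W125.RS

open Finset Pool.Agent.W262.RK Pool.Agent.W108.RK Pool.Agent.W762.RK2 Pool.Agent.W307.RS

section big

variable {J : Type} [Fintype J] [DecidableEq J] {z y k : ℕ}

/-- first bit -/
def B1 (a : Fin k) (x : Option (J × (Fin k → Bool × Bool))) : Bool :=
  x.elim false fun r => (r.2 a).1

/-- second bit -/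
def B2 (a : Fin k) (x : Option (J × (Fin k → Bool × Bool))) : Bool :=
  x.elim false fun r => (r.2 a).2

/-- first divisor -/
def E1 (a : Fin k) (ξ : Pr z y → Option (J × (Fin k → Bool × Bool))) : ℕ :=
  nb fun p => B1 a (ξ p)

/-- second divisor -/
def E2 (a : Fin k) (ξ : Pr z y → Option (J × (Fin k → Bool × Bool))) : ℕ :=
  nb fun p => B2 a (ξ p)

/-- the tuple -/
def SK (ξ : Pr z y → Option (J × (Fin k → Bool × Bool))) : J → ℕ :=
  Dl fun p => (ξ p).map Prod.fst

lemma E1_dvd (a : Fin k) (ξ : Pr z y → Option (J × (Fin k → Bool × Bool))) :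
    E1 a ξ ∣ ∏ j, SK ξ j := by
  unfold SK E1
  rw [prod_Dl]
  refine nb_dvd fun p hp => ?_
  cases h : ξ p with
  | none => rw [h] at hp; exact absurd hp (by simp [B1])
  | some a => rfl

lemma E2_dvd (a : Fin k) (ξ : Pr z y → Option (J × (Fin k → Bool × Bool))) :
    E2 a ξ ∣ ∏ j, SK ξ j := by
  unfold SK E2
  rw [prod_Dl]
  refine nb_dvd fun p hp => ?_
  cases h : ξ p with
  | none => rw [h] at hp; exact absurd hp (by simp [B2])
  | some a => rfl

lemma prod_SK_ne (ξ : Pr z y → Option (J × (Fin k → Bool × Bool))) : ∏ j, SK ξ j ≠ 0 := by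
  unfold SK
  rw [prod_Dl]
  exact nb_ne_zero _

lemma sum_bigK (F : (J → ℕ) → (Fin k → ℕ × ℕ) → ℝ) :
    ∑ s ∈ Tup J z y, ∑ d ∈ Fintype.piFinset
      (fun _ : Fin k => (∏ j, s j).divisors ×ˢ (∏ j, s j).divisors), F s d =
      ∑ ξ : Pr z y → Option (J × (Fin k → Bool × Bool)),
        F (SK ξ) (fun a => (E1 a ξ, E2 a ξ)) := by
  rw [Finset.sum_sigma']
  symm
  refine Finset.sum_bij (fun ξ _ => ⟨SK ξ, fun a => (E1 a ξ, E2 a ξ)⟩) ?_ ?_ ?_ (fun _ _ => rfl)
  · intro ξ _
    rw [Finset.mem_sigma, Fintype.mem_piFinset]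
    refine ⟨Dl_mem _, fun a => ?_⟩
    rw [Finset.mem_product]
    exact ⟨Nat.mem_divisors.2 ⟨E1_dvd a ξ, prod_SK_ne ξ⟩,
      Nat.mem_divisors.2 ⟨E2_dvd a ξ, prod_SK_ne ξ⟩⟩
  · intro ξ _ ξ' _ h
    have h1 : SK ξ = SK ξ' := congrArg Sigma.fst h
    have h2 : (fun a => (E1 a ξ, E2 a ξ)) = (fun a => (E1 a ξ', E2 a ξ')) :=
      congrArg Sigma.snd h
    have h3 : ∀ a, E1 a ξ = E1 a ξ' := fun a => congrArg Prod.fst (congrFun h2 a)
    have h4 : ∀ a, E2 a ξ = E2 a ξ' := fun a => congrArg Prod.snd (congrFun h2 a)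
    funext p
    have e1 : (ξ p).map Prod.fst = (ξ' p).map Prod.fst := congrFun (Dl_inj h1) p
    have e2 : ∀ a, B1 a (ξ p) = B1 a (ξ' p) := fun a => congrFun (nb_inj (h3 a)) p
    have e3 : ∀ a, B2 a (ξ p) = B2 a (ξ' p) := fun a => congrFun (nb_inj (h4 a)) p
    cases hx : ξ p with
    | none =>
      cases hx' : ξ' p with
      | none => rfl
      | some a' => rw [hx, hx'] at e1; exact absurd e1 (by simp)
    | some a =>
      cases hx' : ξ' p with
      | none => rw [hx, hx'] at e1; exact absurd e1 (by simp)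
      | some a' =>
        rw [hx, hx'] at e1
        obtain ⟨j, v⟩ := a
        obtain ⟨j', v'⟩ := a'
        have e4 : j = j' := by simpa using e1
        have e5 : v = v' := by
          funext a
          have e6 := e2 a
          have e7 := e3 a
          rw [hx, hx'] at e6 e7
          exact Prod.ext e6 e7
        rw [e4, e5]
  · rintro ⟨s, d⟩ hs
    rw [Finset.mem_sigma, Fintype.mem_piFinset] at hs
    obtain ⟨hs, hd⟩ := hs
    have hd1 : ∀ a, (d a).1 ∣ ∏ j, s j := fun a =>
      (Nat.mem_divisors.1 (Finset.mem_product.1 (hd a)).1).1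
    have hd2 : ∀ a, (d a).2 ∣ ∏ j, s j := fun a =>
      (Nat.mem_divisors.1 (Finset.mem_product.1 (hd a)).2).1
    simp only at hs
    have hPP : ∏ j, s j ∣ PP z y := by
      rw [← Dl_lab hs, prod_Dl]
      exact nb_dvd_PP _
    have hn : ∀ p : Pr z y, lab s p = none → ¬ (p : ℕ) ∣ ∏ j, s j := by
      intro p hp h
      rw [← Dl_lab hs, prod_Dl, dvd_nb, hp] at h
      exact absurd h (by simp)
    refine ⟨fun p => (lab s p).map fun j => (j, fun a => (decide ((p : ℕ) ∣ (d a).1),
      decide ((p : ℕ) ∣ (d a).2))), Finset.mem_univ _, ?_⟩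
    have e1 : SK (fun p : Pr z y => (lab s p).map fun j => (j, fun a : Fin k =>
        (decide ((p : ℕ) ∣ (d a).1), decide ((p : ℕ) ∣ (d a).2)))) = s := by
      unfold SK
      conv_rhs => rw [← Dl_lab hs]
      congr 1
      funext p
      show ((lab s p).map fun j => (j, fun a : Fin k =>
        (decide ((p : ℕ) ∣ (d a).1), decide ((p : ℕ) ∣ (d a).2)))).map Prod.fst = _
      cases lab s p <;> rfl
    have e2 : ∀ a, E1 a (fun p : Pr z y => (lab s p).map fun j => (j, fun a : Fin k =>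
        (decide ((p : ℕ) ∣ (d a).1), decide ((p : ℕ) ∣ (d a).2)))) = (d a).1 := by
      intro a
      unfold E1
      conv_rhs => rw [← nb_eq ((hd1 a).trans hPP)]
      congr 1
      funext p
      show B1 a ((lab s p).map fun j => (j, fun a : Fin k =>
        (decide ((p : ℕ) ∣ (d a).1), decide ((p : ℕ) ∣ (d a).2)))) = _
      cases hp : lab s p with
      | none =>
        have : ¬ (p : ℕ) ∣ (d a).1 := fun h => hn p hp (h.trans (hd1 a))
        simp [B1, this]
      | some j => rfl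
    have e3 : ∀ a, E2 a (fun p : Pr z y => (lab s p).map fun j => (j, fun a : Fin k =>
        (decide ((p : ℕ) ∣ (d a).1), decide ((p : ℕ) ∣ (d a).2)))) = (d a).2 := by
      intro a
      unfold E2
      conv_rhs => rw [← nb_eq ((hd2 a).trans hPP)]
      congr 1
      funext p
      show B2 a ((lab s p).map fun j => (j, fun a : Fin k =>
        (decide ((p : ℕ) ∣ (d a).1), decide ((p : ℕ) ∣ (d a).2)))) = _
      cases hp : lab s p with
      | none =>
        have : ¬ (p : ℕ) ∣ (d a).2 := fun h => hn p hp (h.trans (hd2 a))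
        simp [B2, this]
      | some j => rfl
    refine Sigma.ext e1 (heq_of_eq ?_)
    funext a
    exact Prod.ext (e2 a) (e3 a)

end big

section average

variable {J : Type} [Fintype J] [DecidableEq J] {z y k : ℕ}

omit [DecidableEq J] in
lemma P3_c3 (s : J → ℕ) : P3 (c3 J) s = (∏ j, s j).primeFactors := by
  unfold P3 c3
  congr 2
  ext j
  simp

omit [DecidableEq J] in
lemma NBK_eq (κ : J → Fin 3 → ℤ) {s : J → ℕ} :
    NBK k κ s = ∑ d ∈ Fintype.piFinset
      (fun _ : Fin k => (∏ j, s j).divisors ×ˢ (∏ j, s j).divisors),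
      ∏ p ∈ (∏ j, s j).primeFactors, ((∏ a, Il (c3 J) κ s (d a) true p) +
        ∏ a, Il (c3 J) κ s (d a) false p) / 2 := by
  classical
  have h0 : ∀ E : Finset ℕ, (NL (∏ j, s j) (LLs (c3 J) κ s E) : ℝ) =
      ∑ d ∈ (∏ j, s j).divisors ×ˢ (∏ j, s j).divisors,
        ∏ p ∈ (∏ j, s j).primeFactors, Il (c3 J) κ s d (decide (p ∈ E)) p := by
    intro E
    unfold NL
    rw [Finset.card_filter]
    push_cast
    refine Finset.sum_congr rfl fun d _ => ?_
    unfold Il
    rw [prod_ind]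
    unfold ind LLs
    congr
  have h1 : ∀ E : Finset ℕ, (NL (∏ j, s j) (LLs (c3 J) κ s E) : ℝ) ^ k =
      ∑ d ∈ Fintype.piFinset
        (fun _ : Fin k => (∏ j, s j).divisors ×ˢ (∏ j, s j).divisors),
        ∏ p ∈ (∏ j, s j).primeFactors, ∏ a, Il (c3 J) κ s (d a) (decide (p ∈ E)) p := by
    intro E
    have h2 : (NL (∏ j, s j) (LLs (c3 J) κ s E) : ℝ) ^ k =
        ∏ _a : Fin k, (NL (∏ j, s j) (LLs (c3 J) κ s E) : ℝ) := by
      rw [Finset.prod_const, Finset.card_univ, Fintype.card_fin]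
    rw [h2, Finset.prod_congr rfl fun a _ => h0 E, Finset.prod_univ_sum]
    refine Finset.sum_congr rfl fun d _ => ?_
    rw [Finset.prod_comm]
  unfold NBK
  rw [Finset.sum_congr rfl fun E _ => h1 E, Finset.sum_comm, Finset.mul_sum]
  refine Finset.sum_congr rfl fun d _ => ?_
  refine avg (P3 (c3 J) s) (∏ j, s j).primeFactors ?_
    (fun b p => ∏ a, Il (c3 J) κ s (d a) b p) ?_
  · rw [P3_c3]
  · intro p hp hpA
    rw [P3_c3] at hpA
    exact absurd hp hpA

end average

section local_identity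

variable {k : ℕ}

lemma two_ch (h g H G : Bool) :
    ind (h = H ∧ g = G) = ∑ x : Bool × Bool, 1 / 4 * ((if x.1 = true then sg H else 1) *
      (if x.2 = true then sg G else 1)) * ((if x.1 = true then sg h else 1) *
      (if x.2 = true then sg g else 1)) := by
  simp only [Fintype.sum_prod_type, Fintype.sum_bool]
  cases h <;> cases g <;> cases H <;> cases G <;> simp [ind, sg] <;> norm_num

lemma sg_xor (a b : Bool) : sg (xor a b) = sg a * sg b := by
  cases a <;> cases b <;> simp [sg]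

lemma cst_eq (κ : Fin 3 → ℤ) {p : ℕ} (hp : p.Prime) (hk : ∀ i, ¬ (p : ℤ) ∣ κ i)
    (v x : Bool × Bool) : Jr (cst κ v x) p =
      (if x.1 = true then sg (xor (v.1 && !v.2 && sg0 p (κ 0))
        (xor (!v.1 && v.2 && sg0 p (κ 0 * κ 1)) (v.1 && v.2 && sg0 p (κ 1)))) else 1) *
      (if x.2 = true then sg (xor (v.1 && !v.2 && sg0 p (κ 0 * κ 2))
        (xor (!v.1 && v.2 && sg0 p (-κ 0)) (v.1 && v.2 && sg0 p (-κ 2)))) else 1) := by
  have hmul : ∀ i j, ¬ (p : ℤ) ∣ κ i * κ j := by
    intro i j hd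
    rcases (Nat.prime_iff_prime_int.1 hp).dvd_or_dvd hd with h' | h'
    · exact hk i h'
    · exact hk j h'
  have hneg : ∀ i, ¬ (p : ℤ) ∣ -κ i := fun i h' => hk i ((dvd_neg).1 h')
  have e1 := Jr_dvd_ne hp (hmul 0 2)
  have e2 := Jr_dvd_ne hp (hmul 0 1)
  have e3 := Jr_dvd_ne hp (hk 1)
  have e3' := Jr_dvd_ne hp (hneg 2)
  have e4 := Jr_dvd_ne hp (hk 0)
  have e4' := Jr_dvd_ne hp (hneg 0)
  have e5 : Jr 1 p = 1 := Jr_one_left p
  have hs0 : sg false = 1 := by simp [sg]
  have hc : cst κ v x = (if x.1 = true then cst κ v (true, false) else 1) *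
      (if x.2 = true then cst κ v (false, true) else 1) := by
    unfold cst
    split_ifs <;> simp_all
  rw [hc, Jr_mul_left]
  congr 1
  · split_ifs
    · obtain ⟨v1, v2⟩ := v
      cases v1 <;> cases v2 <;> simp [cst, e5, hs0, e2, e4, e3]
    · exact e5
  · split_ifs
    · obtain ⟨v1, v2⟩ := v
      cases v1 <;> cases v2 <;> simp [cst, e5, hs0, e1, e4', e3']
    · exact e5

lemma loc1 (κ : Fin 3 → ℤ) {p : ℕ} (hp : p.Prime) (hk : ∀ i, ¬ (p : ℤ) ∣ κ i) (neg : Bool)
    (v : Bool × Bool) (h g : Bool) :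
    ind (LL 3 κ neg p v.1 v.2 h g) =
      ∑ x : Bool × Bool, (if xor (x.1 && v.1) (x.2 && v.2) = true then sg neg else 1) *
        (1 / 4 * Jr (cst κ v x) p * ((if x.1 = true then sg h else 1) *
          (if x.2 = true then sg g else 1))) := by
  have hLL : ind (LL 3 κ neg p v.1 v.2 h g) = ind (h = xor (v.1 && neg) (xor
      (v.1 && !v.2 && sg0 p (κ 0)) (xor (!v.1 && v.2 && sg0 p (κ 0 * κ 1))
      (v.1 && v.2 && sg0 p (κ 1)))) ∧
      g = xor (v.2 && neg) (xor (v.1 && !v.2 && sg0 p (κ 0 * κ 2))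
      (xor (!v.1 && v.2 && sg0 p (-κ 0)) (v.1 && v.2 && sg0 p (-κ 2))))) := by
    congr 1
  rw [hLL, two_ch]
  refine Finset.sum_congr rfl fun x _ => ?_
  rw [sg_xor, sg_xor (v.2 && neg), cst_eq κ hp hk]
  generalize (xor (v.1 && !v.2 && sg0 p (κ 0))
        (xor (!v.1 && v.2 && sg0 p (κ 0 * κ 1)) (v.1 && v.2 && sg0 p (κ 1)))) = A
  generalize (xor (v.1 && !v.2 && sg0 p (κ 0 * κ 2))
        (xor (!v.1 && v.2 && sg0 p (-κ 0)) (v.1 && v.2 && sg0 p (-κ 2)))) = B
  obtain ⟨x1, x2⟩ := x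
  obtain ⟨v1, v2⟩ := v
  have st : sg true = -1 := by simp [sg]
  have sf : sg false = 1 := by simp [sg]
  generalize sg A = A'
  generalize sg B = B'
  generalize sg h = h'
  generalize sg g = g'
  clear hLL
  cases v1 <;> cases v2 <;> cases x1 <;> cases x2 <;> cases neg <;> simp [st, sf]

/-- the product of the bits -/
lemma prod_par (r : ℝ) (hr : r * r = 1) (v x : Fin k → Bool × Bool) :
    (∏ a, if xor ((x a).1 && (v a).1) ((x a).2 && (v a).2) = true then r else 1) =
      if dK k v x % 2 = 1 then r else 1 := by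
  rw [← Finset.prod_filter, Finset.prod_const]
  show r ^ dK k v x = _
  conv_lhs => rw [← Nat.div_add_mod (dK k v x) 2]
  rw [pow_add, pow_mul, pow_two, hr, one_pow, one_mul]
  rcases Nat.mod_two_eq_zero_or_one (dK k v x) with h | h <;> simp [h]

lemma locK (κ : Fin 3 → ℤ) {p : ℕ} (hp : p.Prime) (hk : ∀ i, ¬ (p : ℤ) ∣ κ i)
    (v : Fin k → Bool × Bool) (h g : Fin k → Bool) :
    ((∏ a, ind (LL 3 κ true p (v a).1 (v a).2 (h a) (g a))) +
      ∏ a, ind (LL 3 κ false p (v a).1 (v a).2 (h a) (g a))) / 2 =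
      ∑ x : Fin k → Bool × Bool, if dK k v x % 2 = 0 then
        1 / 4 ^ k * Jr (∏ a, cst κ (v a) (x a)) p *
          ∏ a, ((if (x a).1 = true then sg (h a) else 1) *
            (if (x a).2 = true then sg (g a) else 1)) else 0 := by
  have h1 : ∀ neg, ∏ a, ind (LL 3 κ neg p (v a).1 (v a).2 (h a) (g a)) =
      ∑ x : Fin k → Bool × Bool, (if dK k v x % 2 = 1 then sg neg else 1) *
        (1 / 4 ^ k * Jr (∏ a, cst κ (v a) (x a)) p *
          ∏ a, ((if (x a).1 = true then sg (h a) else 1) *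
            (if (x a).2 = true then sg (g a) else 1))) := by
    intro neg
    rw [Finset.prod_congr rfl fun a _ => loc1 κ hp hk neg (v a) (h a) (g a),
      Finset.prod_univ_sum, Fintype.piFinset_univ]
    refine Finset.sum_congr rfl fun x _ => ?_
    rw [Finset.prod_mul_distrib, Finset.prod_mul_distrib, Finset.prod_mul_distrib,
      prod_par _ (by cases neg <;> simp [sg]), Jr_prod_left, Finset.prod_const,
      Finset.card_univ, Fintype.card_fin, one_div, one_div, inv_pow]
  rw [h1, h1, ← Finset.sum_add_distrib, Finset.sum_div]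
  refine Finset.sum_congr rfl fun x _ => ?_
  rcases Nat.mod_two_eq_zero_or_one (dK k v x) with h' | h'
  · simp [h']
  · simp [h', sg]

end local_identity

section final

variable {J : Type} [Fintype J] [DecidableEq J] {z y k : ℕ}

/-- the local term -/
noncomputable def TmK (κ : J → Fin 3 → ℤ) (c : ℕ)
    (ξ : Pr z y → Option (J × (Fin k → Bool × Bool))) (p : Pr z y) : ℝ :=
  (ξ p).elim 1 fun r => 1 / ((p : ℝ) - c) * (((∏ a, ind (LL 3 (κ r.1) true p (r.2 a).1 (r.2 a).2
    (sgn p (E1 a ξ)) (sgn p (E2 a ξ)))) + ∏ a, ind (LL 3 (κ r.1) false p (r.2 a).1 (r.2 a).2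
    (sgn p (E1 a ξ)) (sgn p (E2 a ξ)))) / 2)

lemma lhsK (κ : J → Fin 3 → ℤ) (c : ℕ) :
    ∑ s ∈ Tup J z y, NBK k κ s * ∏ j, gw 1 c (s j) =
      ∑ ξ : Pr z y → Option (J × (Fin k → Bool × Bool)), ∏ p, TmK κ c ξ p := by
  have h1 : ∀ s ∈ Tup J z y, NBK k κ s * ∏ j, gw 1 c (s j) =
      ∑ d ∈ Fintype.piFinset (fun _ : Fin k => (∏ j, s j).divisors ×ˢ (∏ j, s j).divisors),
        (∏ p ∈ (∏ j, s j).primeFactors, ((∏ a, Il (c3 J) κ s (d a) true p) +
        ∏ a, Il (c3 J) κ s (d a) false p) / 2) * ∏ j, gw 1 c (s j) := by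
    intro s hs
    rw [NBK_eq κ, Finset.sum_mul]
  rw [Finset.sum_congr rfl h1, sum_bigK fun s d =>
    (∏ p ∈ (∏ j, s j).primeFactors, ((∏ a, Il (c3 J) κ s (d a) true p) +
        ∏ a, Il (c3 J) κ s (d a) false p) / 2) * ∏ j, gw 1 c (s j)]
  refine Finset.sum_congr rfl fun ξ _ => ?_
  have h2 : ∏ j, gw 1 c (SK ξ j) = ∏ p : Pr z y, ((ξ p).map Prod.fst).elim 1
      fun _ => 1 / ((p : ℝ) - c) := prod_gw (fun _ => 1) c _
  have h3 : ∏ j, SK ξ j = nb fun p => ((ξ p).map Prod.fst).isSome := prod_Dl _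
  rw [h2, h3, prod_pf _ fun p => ((∏ a, Il (c3 J) κ (SK ξ) (E1 a ξ, E2 a ξ) true p) +
    ∏ a, Il (c3 J) κ (SK ξ) (E1 a ξ, E2 a ξ) false p) / 2, ← Finset.prod_mul_distrib]
  refine Finset.prod_congr rfl fun p _ => ?_
  unfold TmK
  cases hx : ξ p with
  | none => simp
  | some r =>
    have h4 : ∀ (neg : Bool) (a : Fin k), Il (c3 J) κ (SK ξ) (E1 a ξ, E2 a ξ) neg p =
        ind (LL 3 (κ r.1) neg p (r.2 a).1 (r.2 a).2 (sgn p (E1 a ξ)) (sgn p (E2 a ξ))) := by
      intro neg a
      unfold Il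
      have e1 : dv p (E1 a ξ : ℤ) = (r.2 a).1 := by
        have : B1 a (ξ p) = (r.2 a).1 := by rw [hx]; rfl
        rw [← this]
        unfold dv
        rw [Bool.eq_iff_iff, decide_eq_true_iff, Int.natCast_dvd_natCast]
        exact dvd_nb _ p
      have e2 : dv p (E2 a ξ : ℤ) = (r.2 a).2 := by
        have : B2 a (ξ p) = (r.2 a).2 := by rw [hx]; rfl
        rw [← this]
        unfold dv
        rw [Bool.eq_iff_iff, decide_eq_true_iff, Int.natCast_dvd_natCast]
        exact dvd_nb _ p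
      have e3 : ∀ j, (p : ℕ) ∣ SK ξ j ↔ j = r.1 := by
        intro j
        unfold SK Dl
        rw [dvd_nb, decide_eq_true_iff]
        show (ξ p).map Prod.fst = some j ↔ j = r.1
        rw [hx]
        simp [eq_comm]
      congr 1
      simp only [e1, e2, e3, forall_eq]
      rfl
    simp only [h4]
    simp only [Option.map_some, Option.isSome_some, if_true, Option.elim]
    ring

/-- forget the character -/
def fgK (x : Option (IK k J)) : Option (J × (Fin k → Bool × Bool)) :=
  x.map fun i => (i.1.1, i.1.2.1)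

/-- the local factor -/
noncomputable def GK (κ : J → Fin 3 → ℤ) (c : ℕ)
    (ξ : Pr z y → Option (J × (Fin k → Bool × Bool))) (p : Pr z y) (x : Option (IK k J)) : ℝ :=
  x.elim 1 fun i => 1 / ((p : ℝ) - c) * (1 / 4 ^ k * Jr (κK k κ i) p *
    ∏ a, ((if (i.1.2.2 a).1 = true then sg (sgn p (E1 a ξ)) else 1) *
      (if (i.1.2.2 a).2 = true then sg (sgn p (E2 a ξ)) else 1)))

omit [DecidableEq J] in
lemma sum_IK (F : J × (Fin k → Bool × Bool) × (Fin k → Bool × Bool) → ℝ) :
    ∑ i : IK k J, F i.1 = ∑ r, if dK k r.2.1 r.2.2 % 2 = 0 then F r else 0 := by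
  rw [← Finset.sum_filter]
  exact (Finset.sum_subtype (univ.filter fun r : J × (Fin k → Bool × Bool) ×
    (Fin k → Bool × Bool) => dK k r.2.1 r.2.2 % 2 = 0) (fun x => by simp) F).symm

lemma sum_GK (κ : J → Fin 3 → ℤ) (c : ℕ)
    (ξ : Pr z y → Option (J × (Fin k → Bool × Bool))) (p : Pr z y)
    (hk : ∀ j i, ¬ ((p : ℕ) : ℤ) ∣ κ j i) :
    ∑ x ∈ univ.filter (fun x : Option (IK k J) => fgK x = ξ p), GK κ c ξ p x =
      TmK κ c ξ p := by
  rw [Finset.sum_filter, Fintype.sum_option]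
  unfold TmK
  cases hx : ξ p with
  | none => simp [fgK, GK]
  | some r =>
    obtain ⟨j, v⟩ := r
    have h0 : (if fgK (none : Option (IK k J)) = some (j, v) then GK κ c ξ p none else 0) = 0 := by
      rw [if_neg]
      simp [fgK]
    rw [h0, zero_add]
    set F : J × (Fin k → Bool × Bool) × (Fin k → Bool × Bool) → ℝ :=
      fun r : J × (Fin k → Bool × Bool) × (Fin k → Bool × Bool) =>
          if r.1 = j ∧ r.2.1 = v then 1 / ((p : ℝ) - c) * (1 / 4 ^ k *
            Jr (∏ a, cst (κ r.1) (r.2.1 a) (r.2.2 a)) p *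
            ∏ a, ((if (r.2.2 a).1 = true then sg (sgn p (E1 a ξ)) else 1) *
            (if (r.2.2 a).2 = true then sg (sgn p (E2 a ξ)) else 1))) else 0 with hF
    have h1 : ∀ i : IK k J, (if fgK (some i) = some (j, v) then GK κ c ξ p (some i) else 0) =
        F i.1 := by
      intro i
      refine if_congr ?_ rfl rfl
      simp only [fgK, Option.map_some, Option.some.injEq, Prod.mk.injEq]
    refine (Finset.sum_congr rfl fun i _ => h1 i).trans ((sum_IK F).trans ?_)
    rw [Fintype.sum_prod_type, Finset.sum_eq_single j]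
    · rw [Fintype.sum_prod_type, Finset.sum_eq_single v]
      · show _ = 1 / ((p : ℝ) - c) * _
        rw [locK (κ j) (Pr_prime p) (hk j) v, Finset.mul_sum]
        refine Finset.sum_congr rfl fun x _ => ?_
        simp only [hF, and_self, if_true, mul_ite, mul_zero]
      · intro v' _ hv'
        refine Finset.sum_eq_zero fun x _ => ?_
        simp [hF, hv']
      · intro h
        exact absurd (Finset.mem_univ _) h
    · intro j' _ hj'
      refine Finset.sum_eq_zero fun x _ => ?_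
      simp [hF, hj']
    · intro h
      exact absurd (Finset.mem_univ _) h

lemma Jr_self_mul {q p : Pr z y} (hqp : q ≠ p) : Jr (q : ℕ) p * Jr (q : ℕ) p = 1 := by
  have hnd : ¬ ((p : ℕ) : ℤ) ∣ ((q : ℕ) : ℤ) := by
    rw [Int.natCast_dvd_natCast]
    intro hd
    exact hqp (Subtype.ext ((Nat.prime_dvd_prime_iff_eq (Pr_prime p) (Pr_prime q)).1 hd).symm)
  rw [← sg_sg0 (Pr_prime p) hnd]
  unfold sg
  split_ifs <;> norm_num

lemma rhsK (κ : J → Fin 3 → ℤ) (c : ℕ)
    (ξ : Pr z y → Option (J × (Fin k → Bool × Bool))) (l : Pr z y → Option (IK k J))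
    (h : ∀ p, fgK (l p) = ξ p) :
    (∏ i, gw (1 / 4 ^ k) c (Dl l i)) * Pool.Agent.W262.RK.Sym (LK k) (κK k κ) (Dl l) =
      ∏ p, GK κ c ξ p (l p) := by
  rw [prod_gw (fun _ => 1 / 4 ^ k), Sym_Dl, ← Finset.prod_mul_distrib, ← Finset.prod_mul_distrib]
  refine Finset.prod_congr rfl fun p _ => ?_
  cases hl : l p with
  | none =>
    have h0 : ∀ q, Pool.Agent.W762.RK2.lk (LK k) (l q) (none : Option (IK k J)) = false := by
      intro q
      cases l q <;> rfl
    simp [h0, GK]
  | some i =>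
    have h2 : ∏ q : Pr z y, (if Pool.Agent.W762.RK2.lk (LK k) (l q) (some i) = true then Jr (q : ℕ) p else 1) =
        ∏ a, ((if (i.1.2.2 a).1 = true then sg (sgn p (E1 a ξ)) else 1) *
      (if (i.1.2.2 a).2 = true then sg (sgn p (E2 a ξ)) else 1)) := by
      have h3 : ∀ a : Bool, ∀ b : Pr z y → Bool, (if a = true then sg (sgn p (nb b : ℤ)) else 1) =
          ∏ q : Pr z y, if a = true then (if q ≠ p ∧ b q = true then Jr (q : ℕ) p else 1)
            else 1 := by
        intro a b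
        cases a
        · simp
        · simp only [if_true]
          exact sgn_nb b p
      unfold E1 E2
      simp only [h3, ← Finset.prod_mul_distrib]
      rw [Finset.prod_comm]
      refine Finset.prod_congr rfl fun q _ => ?_
      by_cases hqp : q = p
      · subst hqp
        rw [hl]
        have h4 : Pool.Agent.W762.RK2.lk (LK k) (some i) (some i) = false := by
          show decide (dK k i.1.2.1 i.1.2.2 % 2 = 1) = false
          rw [i.2]
          rfl
        simp [h4]
      · cases hq : l q with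
        | none =>
          have h5 : ξ q = none := by rw [← h q, hq]; rfl
          simp [Pool.Agent.W762.RK2.lk, h5, B1, B2]
        | some i' =>
          have h5 : ξ q = some (i'.1.1, i'.1.2.1) := by rw [← h q, hq]; rfl
          have h6 := prod_par (Jr (q : ℕ) p) (Jr_self_mul hqp) i'.1.2.1 i.1.2.2
          have h7 : (if Pool.Agent.W762.RK2.lk (LK k) (some i') (some i) = true then Jr (q : ℕ) p else 1) =
              if dK k i'.1.2.1 i.1.2.2 % 2 = 1 then Jr (q : ℕ) p else 1 := by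
            refine if_congr ?_ rfl rfl
            show decide (dK k i'.1.2.1 i.1.2.2 % 2 = 1) = true ↔ _
            exact decide_eq_true_iff
          rw [h7, ← h6]
          refine Finset.prod_congr rfl fun a _ => ?_
          have e1 : B1 a (ξ q) = (i'.1.2.1 a).1 := by rw [h5]; rfl
          have e2 : B2 a (ξ q) = (i'.1.2.1 a).2 := by rw [h5]; rfl
          rw [e1, e2]
          exact bits_eq q p _ _ _ _ fun hh => absurd hh hqp
    rw [h2]
    simp only [GK, Option.elim]
    ring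

end final

theorem expk : Pool.Agent.W307.RS.EXPK := by
  intro J _ _ k κ c z y hz hκ hκz
  classical
  rw [lhsK, sum_Tup, ← Finset.sum_fiberwise univ
    (fun (l : Pr z y → Option (IK k J)) => fun p => fgK (l p))]
  refine Finset.sum_congr rfl fun ξ _ => ?_
  have h1 : (univ.filter fun l : Pr z y → Option (IK k J) => (fun p => fgK (l p)) = ξ) =
      Fintype.piFinset (fun p => univ.filter (fun x : Option (IK k J) => fgK x = ξ p)) := by
    ext l
    simp only [Finset.mem_filter, Finset.mem_univ, true_and, Fintype.mem_piFinset, funext_iff]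
  have hk : ∀ p : Pr z y, ∀ j i, ¬ ((p : ℕ) : ℤ) ∣ κ j i := by
    intro p j i hd
    have hz : z < p := by
      have := p.2
      unfold PS at this
      exact (Finset.mem_Ioc.1 (Finset.mem_filter.1 this).1).1
    have h3 := Nat.le_of_dvd (Int.natAbs_pos.mpr (hκ j i)) (Int.natCast_dvd.1 hd)
    have h4 := hκz j i
    omega
  rw [h1, Finset.prod_congr rfl fun p _ => (sum_GK κ c ξ p (hk p)).symm, Finset.prod_univ_sum]
  refine Finset.sum_congr rfl fun l hl => ?_
  rw [Fintype.mem_piFinset] at hl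
  exact (rhsK κ c ξ l fun p => (Finset.mem_filter.1 (hl p)).2).symm

end Pool.Agent.W125.RS
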